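import Pool.Agent.helper37.P2.SpecA

/-! Row p2:LHM (MP_063734_an): Riesz mass of a Hölder subharmonic function with a weight `|s|^(-β)` -/

set_option autoImplicit false

open scoped ContDiff Topology ENNReal
open MeasureTheory Filter Set Metric MvPolynomial Pool.Agent.helper37.QA

namespace Pool.Agent.P2

theorem LHM_lap (g : ℂ → ℝ) (z : ℂ) :
    lap g z = (1 / 4) * (fderiv ℝ (fderiv ℝ g) z 1 1 + fderiv ℝ (fderiv ℝ g) z Complex.I Complex.I) := by
  unfold lap
  rw [iteratedFDeriv_two_apply, iteratedFDeriv_two_apply]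
  simp

theorem LHM_int (f g : ℂ → ℝ) (U : Set ℂ) (hU : IsOpen U) (hf : Continuous f) (hfc : HasCompactSupport f)
    (hfU : tsupport f ⊆ U) (hg : ContinuousOn g U) : Integrable (fun x => f x * g x) := by
  have hts : tsupport (fun x => f x * g x) ⊆ tsupport f := tsupport_mul_subset_left
  have hc : Continuous (fun x => f x * g x) := by
    apply continuous_of_tsupport
    intro x hx
    have hxU : x ∈ U := hfU (hts hx)
    exact hf.continuousAt.mul (hg.continuousAt (hU.mem_nhds hxU))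
  exact hc.integrable_of_hasCompactSupport (hfc.mul_right)

/-- integration by parts of a second derivative -/
theorem LHM_ibp (χ u : ℂ → ℝ) (a : ℂ) (c : ℝ) (U : Set ℂ) (hU : IsOpen U) (hχ : ContDiff ℝ ∞ χ) (hχc : HasCompactSupport χ)
    (hχU : tsupport χ ⊆ U) (hu : ContDiffOn ℝ ∞ u U) :
    ∫ x, χ x * fderiv ℝ (fderiv ℝ u) x a a = ∫ x, fderiv ℝ (fderiv ℝ χ) x a a * (u x - c) := by
  have hua : ∀ x ∈ U, ContDiffAt ℝ ∞ u x := fun x hx => hu.contDiffAt (hU.mem_nhds hx)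
  have hu1 : ContDiffOn ℝ ∞ (fderiv ℝ u) U := by
    intro x hx
    exact ((hua x hx).fderiv_right (m := ∞) (by simp)).contDiffWithinAt
  have hu2 : ContDiffOn ℝ ∞ (fderiv ℝ (fderiv ℝ u)) U := by
    intro x hx
    exact ((hu1.contDiffAt (hU.mem_nhds hx)).fderiv_right (m := ∞) (by simp)).contDiffWithinAt
  have hχ1 : ContDiff ℝ ∞ (fderiv ℝ χ) := hχ.fderiv_right (m := ∞) (by simp)
  have hχ2 : ContDiff ℝ ∞ (fderiv ℝ (fderiv ℝ χ)) := hχ1.fderiv_right (m := ∞) (by simp)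
  -- directional derivatives
  have hd : ∀ x ∈ U, fderiv ℝ (fun y => fderiv ℝ u y a) x a = fderiv ℝ (fderiv ℝ u) x a a := by
    intro x hx
    have h1 : DifferentiableAt ℝ (fderiv ℝ u) x := (hu1.contDiffAt (hU.mem_nhds hx)).differentiableAt (by simp)
    rw [fderiv_clm_apply h1 (differentiableAt_const a)]
    simp
  have hdχ : ∀ x, fderiv ℝ (fun y => fderiv ℝ χ y a) x a = fderiv ℝ (fderiv ℝ χ) x a a := by
    intro x
    have h1 : DifferentiableAt ℝ (fderiv ℝ χ) x := hχ1.contDiffAt.differentiableAt (by simp)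
    rw [fderiv_clm_apply h1 (differentiableAt_const a)]
    simp
  have hsup1 : tsupport (fun y => fderiv ℝ χ y a) ⊆ tsupport χ := by
    refine (closure_mono ?_).trans (tsupport_fderiv_subset ℝ)
    intro y hy
    rw [Function.mem_support] at hy ⊢
    intro h
    apply hy
    rw [h]
    simp
  have hχ1c : HasCompactSupport (fun y => fderiv ℝ χ y a) := hχc.of_isClosed_subset (isClosed_tsupport _) hsup1
  have hsup2 : tsupport (fun y => fderiv ℝ (fun z => fderiv ℝ χ z a) y a) ⊆ tsupport χ := by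
    refine Set.Subset.trans ?_ hsup1
    refine (closure_mono ?_).trans (tsupport_fderiv_subset ℝ)
    intro y hy
    rw [Function.mem_support] at hy ⊢
    intro h
    apply hy
    rw [h]
    simp
  have hcont1 : Continuous (fun y => fderiv ℝ χ y a) := hχ1.continuous.clm_apply continuous_const
  have hcont2 : Continuous (fun y => fderiv ℝ (fun z => fderiv ℝ χ z a) y a) := by
    have : (fun y => fderiv ℝ (fun z => fderiv ℝ χ z a) y a) = fun y => fderiv ℝ (fderiv ℝ χ) y a a := funext hdχ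
    rw [this]
    exact (hχ2.continuous.clm_apply continuous_const).clm_apply continuous_const
  have hχ2c : HasCompactSupport (fun y => fderiv ℝ (fun z => fderiv ℝ χ z a) y a) :=
    hχc.of_isClosed_subset (isClosed_tsupport _) hsup2
  have hcu1 : ContinuousOn (fun y => fderiv ℝ u y a) U := hu1.continuousOn.clm_apply continuousOn_const
  have hcu2 : ContinuousOn (fun y => fderiv ℝ (fun z => fderiv ℝ u z a) y a) U := by
    have h : ContinuousOn (fun y => fderiv ℝ (fderiv ℝ u) y a a) U :=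
      (hu2.continuousOn.clm_apply continuousOn_const).clm_apply continuousOn_const
    exact h.congr fun x hx => hd x hx
  have hcu : ContinuousOn (fun y => u y - c) U := hu.continuousOn.sub continuousOn_const
  -- first integration by parts
  have e1 : ∫ x, χ x * fderiv ℝ (fun y => fderiv ℝ u y a) x a = - ∫ x, fderiv ℝ χ x a * fderiv ℝ u x a := by
    apply integral_mul_fderiv_eq_neg_fderiv_mul_of_integrable
    · exact LHM_int _ _ U hU hcont1 hχ1c (hsup1.trans hχU) hcu1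
    · exact LHM_int _ _ U hU hχ.continuous hχc hχU hcu2
    · exact LHM_int _ _ U hU hχ.continuous hχc hχU hcu1
    · intro x _
      exact hχ.contDiffAt.differentiableAt (by simp)
    · intro x hx
      have h1 : DifferentiableAt ℝ (fderiv ℝ u) x := (hu1.contDiffAt (hU.mem_nhds (hχU hx))).differentiableAt (by simp)
      exact h1.clm_apply (differentiableAt_const a)
  -- second integration by parts
  have e2 : ∫ x, fderiv ℝ χ x a * fderiv ℝ (fun y => u y - c) x a =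
      - ∫ x, fderiv ℝ (fun y => fderiv ℝ χ y a) x a * (u x - c) := by
    apply integral_mul_fderiv_eq_neg_fderiv_mul_of_integrable (f := fun y => fderiv ℝ χ y a) (g := fun y => u y - c)
    · exact LHM_int _ _ U hU hcont2 hχ2c (hsup2.trans hχU) hcu
    · have h : ContinuousOn (fun y => fderiv ℝ (fun z => u z - c) y a) U := by
        refine hcu1.congr fun x hx => ?_
        rw [fderiv_sub_const]
      exact LHM_int _ _ U hU hcont1 hχ1c (hsup1.trans hχU) h
    · exact LHM_int _ _ U hU hcont1 hχ1c (hsup1.trans hχU) hcu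
    · intro x _
      have h1 : DifferentiableAt ℝ (fderiv ℝ χ) x := hχ1.contDiffAt.differentiableAt (by simp)
      exact h1.clm_apply (differentiableAt_const a)
    · intro x hx
      exact ((hua x (hχU (hsup1 hx))).differentiableAt (by simp)).sub_const c
  have e3 : ∫ x, χ x * fderiv ℝ (fderiv ℝ u) x a a = ∫ x, χ x * fderiv ℝ (fun y => fderiv ℝ u y a) x a := by
    refine integral_congr_ae (Eventually.of_forall fun x => ?_)
    show χ x * fderiv ℝ (fderiv ℝ u) x a a = χ x * fderiv ℝ (fun y => fderiv ℝ u y a) x a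
    by_cases hx : x ∈ tsupport χ
    · rw [hd x (hχU hx)]
    · rw [image_eq_zero_of_notMem_tsupport hx, zero_mul, zero_mul]
  have e4 : ∫ x, fderiv ℝ χ x a * fderiv ℝ (fun y => u y - c) x a = ∫ x, fderiv ℝ χ x a * fderiv ℝ u x a := by
    refine integral_congr_ae (Eventually.of_forall fun x => ?_)
    show fderiv ℝ χ x a * fderiv ℝ (fun y => u y - c) x a = fderiv ℝ χ x a * fderiv ℝ u x a
    rw [fderiv_sub_const]
  rw [e3, e1, ← e4, e2, neg_neg]
  refine integral_congr_ae (Eventually.of_forall fun x => ?_)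
  show fderiv ℝ (fun y => fderiv ℝ χ y a) x a * (u x - c) = fderiv ℝ (fderiv ℝ χ) x a a * (u x - c)
  rw [hdχ]

/-- the estimate at scale one -/
theorem LHM_core : ∃ C₁ : ℝ, 0 < C₁ ∧ ∀ (u : ℂ → ℝ) (K : ℝ), ContDiffOn ℝ ∞ u (ball 0 4) →
    (∀ s ∈ ball (0 : ℂ) 4, 0 ≤ lap u s) → (∀ s : ℂ, ‖s‖ ≤ 2 → |u s - u 0| ≤ K) →
    ∫ s in ball (0 : ℂ) 1, lap u s ≤ C₁ * K := by
  obtain ⟨f, hf1, hf2⟩ : ∃ f : ContDiffBump (0 : ℂ), f.rIn = 1 ∧ f.rOut = 2 := ⟨⟨1, 2, by norm_num, by norm_num⟩, rfl, rfl⟩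
  obtain ⟨χ, hχd⟩ : ∃ χ : ℂ → ℝ, χ = fun x => f x := ⟨_, rfl⟩
  have hχ : ContDiff ℝ ∞ χ := by rw [hχd]; exact f.contDiff
  have hχs : tsupport χ = closedBall (0 : ℂ) 2 := by rw [hχd, ← hf2]; exact f.tsupport_eq
  have hχc : HasCompactSupport χ := by rw [hχd]; exact f.hasCompactSupport
  have hχ0 : ∀ x, 0 ≤ χ x := by intro x; rw [hχd]; exact f.nonneg
  have hχ1 : ∀ x ∈ closedBall (0 : ℂ) 1, χ x = 1 := by
    intro x hx
    rw [hχd]
    exact f.one_of_mem_closedBall (by rw [hf1]; exact hx)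
  have hsub : tsupport χ ⊆ ball (0 : ℂ) 4 := by
    rw [hχs]
    exact closedBall_subset_ball (by norm_num)
  have hχ' : ContDiff ℝ ∞ (fderiv ℝ χ) := hχ.fderiv_right (m := ∞) (by simp)
  have hχ'' : ContDiff ℝ ∞ (fderiv ℝ (fderiv ℝ χ)) := hχ'.fderiv_right (m := ∞) (by simp)
  have hlc : ∀ a : ℂ, Continuous (fun x => fderiv ℝ (fderiv ℝ χ) x a a) := fun a =>
    (hχ''.continuous.clm_apply continuous_const).clm_apply continuous_const
  have hls : ∀ a : ℂ, ∀ x, x ∉ tsupport χ → fderiv ℝ (fderiv ℝ χ) x a a = 0 := by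
    intro a x hx
    have h1 : x ∉ tsupport (fderiv ℝ χ) := fun h => hx (tsupport_fderiv_subset ℝ h)
    have h2 : x ∉ tsupport (fderiv ℝ (fderiv ℝ χ)) := fun h => h1 (tsupport_fderiv_subset ℝ h)
    rw [image_eq_zero_of_notMem_tsupport h2]
    simp
  have hlsup : ∀ a : ℂ, HasCompactSupport (fun x => fderiv ℝ (fderiv ℝ χ) x a a) := by
    intro a
    apply HasCompactSupport.intro hχc
    exact hls a
  have hlcon : Continuous (fun x => |lap χ x|) := by
    simp only [LHM_lap]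
    exact (continuous_const.mul ((hlc 1).add (hlc Complex.I))).abs
  have hlapsup : HasCompactSupport (fun x => |lap χ x|) := by
    apply HasCompactSupport.intro hχc
    intro x hx
    rw [LHM_lap, hls 1 x hx, hls Complex.I x hx]
    simp
  have hlint : Integrable (fun x => |lap χ x|) := hlcon.integrable_of_hasCompactSupport hlapsup
  refine ⟨(∫ x, |lap χ x|) + 1, by positivity, ?_⟩
  intro u K hu hlap hK
  have hK0 : 0 ≤ K := (abs_nonneg _).trans (hK 0 (by simp))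
  have hU : IsOpen (ball (0 : ℂ) 4) := isOpen_ball
  have hu1 : ContDiffOn ℝ ∞ (fderiv ℝ u) (ball 0 4) := by
    intro x hx
    exact ((hu.contDiffAt (hU.mem_nhds hx)).fderiv_right (m := ∞) (by simp)).contDiffWithinAt
  have hu2 : ContDiffOn ℝ ∞ (fderiv ℝ (fderiv ℝ u)) (ball 0 4) := by
    intro x hx
    exact ((hu1.contDiffAt (hU.mem_nhds hx)).fderiv_right (m := ∞) (by simp)).contDiffWithinAt
  have hcu : ∀ a : ℂ, ContinuousOn (fun y => fderiv ℝ (fderiv ℝ u) y a a) (ball 0 4) := fun a =>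
    (hu2.continuousOn.clm_apply continuousOn_const).clm_apply continuousOn_const
  have hI : ∀ a : ℂ, Integrable (fun x => χ x * fderiv ℝ (fderiv ℝ u) x a a) := fun a =>
    LHM_int _ _ _ hU hχ.continuous hχc hsub (hcu a)
  have hI' : ∀ a : ℂ, Integrable (fun x => fderiv ℝ (fderiv ℝ χ) x a a * (u x - u 0)) := by
    intro a
    refine LHM_int _ _ _ hU (hlc a) (hlsup a) ?_ (hu.continuousOn.sub continuousOn_const)
    refine Set.Subset.trans ?_ hsub
    apply closure_minimal _ (isClosed_tsupport _)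
    intro x hx
    by_contra h
    exact hx (hls a x h)
  have hmain : ∫ x, χ x * lap u x = ∫ x, lap χ x * (u x - u 0) := by
    have h1 : (fun x => χ x * lap u x) = fun x => (1 / 4) * (χ x * fderiv ℝ (fderiv ℝ u) x 1 1 +
        χ x * fderiv ℝ (fderiv ℝ u) x Complex.I Complex.I) := by
      funext x
      rw [LHM_lap]
      ring
    have h2 : (fun x => lap χ x * (u x - u 0)) = fun x => (1 / 4) * (fderiv ℝ (fderiv ℝ χ) x 1 1 * (u x - u 0) +
        fderiv ℝ (fderiv ℝ χ) x Complex.I Complex.I * (u x - u 0)) := by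
      funext x
      rw [LHM_lap]
      ring
    rw [h1, h2, integral_const_mul, integral_const_mul, integral_add (hI 1) (hI Complex.I),
      integral_add (hI' 1) (hI' Complex.I), LHM_ibp χ u 1 (u 0) _ hU hχ hχc hsub hu,
      LHM_ibp χ u Complex.I (u 0) _ hU hχ hχc hsub hu]
  have hIl : Integrable (fun x => χ x * lap u x) := by
    have h1 : (fun x => χ x * lap u x) = fun x => (1 / 4) * (χ x * fderiv ℝ (fderiv ℝ u) x 1 1 +
        χ x * fderiv ℝ (fderiv ℝ u) x Complex.I Complex.I) := by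
      funext x
      rw [LHM_lap]
      ring
    rw [h1]
    exact ((hI 1).add (hI Complex.I)).const_mul _
  have hIr : Integrable (fun x => lap χ x * (u x - u 0)) := by
    have h2 : (fun x => lap χ x * (u x - u 0)) = fun x => (1 / 4) * (fderiv ℝ (fderiv ℝ χ) x 1 1 * (u x - u 0) +
        fderiv ℝ (fderiv ℝ χ) x Complex.I Complex.I * (u x - u 0)) := by
      funext x
      rw [LHM_lap]
      ring
    rw [h2]
    exact ((hI' 1).add (hI' Complex.I)).const_mul _
  have hnn : ∀ x, 0 ≤ χ x * lap u x := by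
    intro x
    by_cases hx : x ∈ tsupport χ
    · exact mul_nonneg (hχ0 x) (hlap x (hsub hx))
    · rw [image_eq_zero_of_notMem_tsupport hx, zero_mul]
  calc ∫ s in ball (0 : ℂ) 1, lap u s = ∫ s in ball (0 : ℂ) 1, χ s * lap u s := by
        refine setIntegral_congr_fun measurableSet_ball fun s hs => ?_
        show lap u s = χ s * lap u s
        rw [hχ1 s (ball_subset_closedBall hs), one_mul]
    _ ≤ ∫ x, χ x * lap u x := setIntegral_le_integral hIl (Eventually.of_forall hnn)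
    _ = ∫ x, lap χ x * (u x - u 0) := hmain
    _ ≤ ∫ x, |lap χ x| * K := by
        refine integral_mono hIr (hlint.mul_const K) fun x => ?_
        show lap χ x * (u x - u 0) ≤ |lap χ x| * K
        by_cases hx : x ∈ tsupport χ
        · rw [hχs, mem_closedBall_zero_iff] at hx
          calc lap χ x * (u x - u 0) ≤ |lap χ x * (u x - u 0)| := le_abs_self _
            _ = |lap χ x| * |u x - u 0| := abs_mul _ _
            _ ≤ |lap χ x| * K := mul_le_mul_of_nonneg_left (hK x hx) (abs_nonneg _)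
        · rw [LHM_lap, hls 1 x hx, hls Complex.I x hx]
          simp
    _ = (∫ x, |lap χ x|) * K := integral_mul_const _ _
    _ ≤ ((∫ x, |lap χ x|) + 1) * K := by
        apply mul_le_mul_of_nonneg_right _ hK0
        linarith

/-- scaling of the Laplacian -/
theorem LHM_scale (v : ℂ → ℝ) (ρ : ℝ) (s : ℂ) (R : ℝ) (hv : ContDiffOn ℝ ∞ v (ball 0 R)) (hs : ρ • s ∈ ball (0 : ℂ) R) :
    lap (fun t => v (ρ • t)) s = ρ ^ 2 * lap v (ρ • s) := by
  have h1 : fderiv ℝ (fun t => v (ρ • t)) = fun t => ρ • fderiv ℝ v (ρ • t) := by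
    funext t
    exact fderiv_comp_smul (f := v) ρ
  have hva : ContDiffAt ℝ ∞ v (ρ • s) := hv.contDiffAt (isOpen_ball.mem_nhds hs)
  have hd : DifferentiableAt ℝ (fderiv ℝ v) (ρ • s) := (hva.fderiv_right (m := ∞) (by simp)).differentiableAt (by simp)
  have hd' : DifferentiableAt ℝ (fun t => fderiv ℝ v (ρ • t)) s := by
    apply DifferentiableAt.comp (g := fderiv ℝ v) (f := fun t : ℂ => ρ • t) s hd
    exact differentiableAt_id.const_smul ρ
  have h2 : fderiv ℝ (fderiv ℝ (fun t => v (ρ • t))) s = ρ • (ρ • fderiv ℝ (fderiv ℝ v) (ρ • s)) := by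
    rw [h1]
    have h3 : fderiv ℝ (fun t => ρ • fderiv ℝ v (ρ • t)) s = ρ • fderiv ℝ (fun t => fderiv ℝ v (ρ • t)) s :=
      fderiv_const_smul hd' ρ
    rw [h3]
    have h4 : fderiv ℝ (fun t => fderiv ℝ v (ρ • t)) s = ρ • fderiv ℝ (fderiv ℝ v) (ρ • s) :=
      fderiv_comp_smul (f := fderiv ℝ v) ρ
    rw [h4]
  rw [LHM_lap, LHM_lap, h2]
  simp only [smul_apply, smul_eq_mul]
  ring

/-- the integral over a ball -/
theorem LHM_ball : ∃ C₁ : ℝ, 0 < C₁ ∧ ∀ (C0 α ρ : ℝ) (v : ℂ → ℝ), 0 < C0 → 0 < α → 0 < ρ → ContDiffOn ℝ ∞ v (ball 0 (4 * ρ)) →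
    (∀ s ∈ ball (0 : ℂ) (4 * ρ), 0 ≤ lap v s) →
    (∀ s ∈ ball (0 : ℂ) (4 * ρ), |v s - v 0| ≤ C0 * ‖s‖ ^ α) →
    ∫⁻ s in ball (0 : ℂ) ρ, ENNReal.ofReal (lap v s) ≤ ENNReal.ofReal (C₁ * C0 * (2 * ρ) ^ α) := by
  obtain ⟨C₁, hC₁, hcore⟩ := LHM_core
  refine ⟨C₁, hC₁, ?_⟩
  intro C0 α ρ v hC0 hα hρ hv hlap hH
  have hmem : ∀ (s : ℂ) (t : ℝ), ‖s‖ < t → ρ • s ∈ ball (0 : ℂ) (t * ρ) := by
    intro s t hs
    rw [mem_ball_zero_iff, norm_smul, Real.norm_of_nonneg hρ.le]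
    nlinarith
  have hu : ContDiffOn ℝ ∞ (fun t => v (ρ • t)) (ball 0 4) := by
    apply hv.comp (contDiff_const_smul ρ).contDiffOn
    intro s hs
    exact hmem s 4 (mem_ball_zero_iff.1 hs)
  have h1 := hcore (fun t => v (ρ • t)) (C0 * (2 * ρ) ^ α) hu (fun s hs => by
    have hs' := hmem s 4 (mem_ball_zero_iff.1 hs)
    rw [LHM_scale v ρ s _ hv hs']
    exact mul_nonneg (sq_nonneg _) (hlap _ hs')) (fun s hs => by
    have hs' : ρ • s ∈ ball (0 : ℂ) (4 * ρ) := hmem s 4 (by linarith)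
    have h2 := hH _ hs'
    show |v (ρ • s) - v (ρ • (0 : ℂ))| ≤ _
    rw [smul_zero]
    refine h2.trans (mul_le_mul_of_nonneg_left ?_ hC0.le)
    apply Real.rpow_le_rpow (norm_nonneg _) _ hα.le
    rw [norm_smul, Real.norm_of_nonneg hρ.le]
    nlinarith)
  have h3 : ∫ s in ball (0 : ℂ) 1, lap (fun t => v (ρ • t)) s = ∫ s in ball (0 : ℂ) ρ, lap v s := by
    have e1 : ∫ s in ball (0 : ℂ) 1, lap (fun t => v (ρ • t)) s = ∫ s in ball (0 : ℂ) 1, ρ ^ 2 * lap v (ρ • s) := by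
      refine setIntegral_congr_fun measurableSet_ball fun s hs => ?_
      exact LHM_scale v ρ s _ hv (hmem s 4 (by
        have := mem_ball_zero_iff.1 hs
        linarith))
    rw [e1, integral_const_mul, Measure.setIntegral_comp_smul_of_pos volume (lap v) (ball (0 : ℂ) 1) hρ,
      smul_unitBall_of_pos hρ, Complex.finrank_real_complex, smul_eq_mul]
    have : (0 : ℝ) < ρ ^ 2 := by positivity
    rw [← mul_assoc, mul_inv_cancel₀ this.ne', one_mul]
  rw [h3] at h1
  -- integrability on the ball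
  have hU : IsOpen (ball (0 : ℂ) (4 * ρ)) := isOpen_ball
  have hv1 : ContDiffOn ℝ ∞ (fderiv ℝ v) (ball 0 (4 * ρ)) := by
    intro x hx
    exact ((hv.contDiffAt (hU.mem_nhds hx)).fderiv_right (m := ∞) (by simp)).contDiffWithinAt
  have hv2 : ContDiffOn ℝ ∞ (fderiv ℝ (fderiv ℝ v)) (ball 0 (4 * ρ)) := by
    intro x hx
    exact ((hv1.contDiffAt (hU.mem_nhds hx)).fderiv_right (m := ∞) (by simp)).contDiffWithinAt
  have hcl : ContinuousOn (lap v) (ball 0 (4 * ρ)) := by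
    have e : lap v = fun z => (1 / 4) * (fderiv ℝ (fderiv ℝ v) z 1 1 + fderiv ℝ (fderiv ℝ v) z Complex.I Complex.I) :=
      funext fun z => LHM_lap v z
    rw [e]
    have hc : ∀ a : ℂ, ContinuousOn (fun y => fderiv ℝ (fderiv ℝ v) y a a) (ball 0 (4 * ρ)) := fun a =>
      (hv2.continuousOn.clm_apply continuousOn_const).clm_apply continuousOn_const
    exact continuousOn_const.mul ((hc 1).add (hc Complex.I))
  have hint : IntegrableOn (lap v) (ball 0 ρ) := by
    have hsub : closedBall (0 : ℂ) ρ ⊆ ball 0 (4 * ρ) := closedBall_subset_ball (by linarith)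
    exact ((hcl.mono hsub).integrableOn_compact (isCompact_closedBall 0 ρ)).mono_set ball_subset_closedBall
  have hnn : 0 ≤ᵐ[volume.restrict (ball (0 : ℂ) ρ)] lap v := by
    filter_upwards [ae_restrict_mem measurableSet_ball] with s hs
    exact hlap s (ball_subset_ball (by linarith) hs)
  rw [← ofReal_integral_eq_lintegral_ofReal hint hnn]
  apply ENNReal.ofReal_le_ofReal
  calc ∫ s in ball (0 : ℂ) ρ, lap v s ≤ C₁ * (C0 * (2 * ρ) ^ α) := h1
    _ = C₁ * C0 * (2 * ρ) ^ α := by ring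

theorem LHM_calc (r α β D : ℝ) (k : ℕ) (hr : 0 < r) :
    (r / 2 ^ (k + 1)) ^ (-β) * (D * (2 * (r / 2 ^ k)) ^ α) =
      D * 2 ^ (α + β) * r ^ (α - β) * ((2 : ℝ) ^ (-(α - β))) ^ k := by
  have h2 : (0 : ℝ) < 2 := by norm_num
  have e1 : r / 2 ^ (k + 1) = r * 2 ^ (-((k : ℝ) + 1)) := by
    rw [Real.rpow_neg h2.le, div_eq_mul_inv]
    norm_cast
  have e2 : 2 * (r / 2 ^ k) = r * 2 ^ (1 - (k : ℝ)) := by
    rw [Real.rpow_sub h2, Real.rpow_one, Real.rpow_natCast]
    ring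
  have e3 : ((2 : ℝ) ^ (-(α - β))) ^ k = 2 ^ (-(α - β) * k) := by
    rw [Real.rpow_mul h2.le, Real.rpow_natCast]
  rw [e1, e2, e3, Real.mul_rpow hr.le (by positivity), Real.mul_rpow hr.le (by positivity), ← Real.rpow_mul h2.le,
    ← Real.rpow_mul h2.le]
  have e4 : r ^ (α - β) = r ^ (-β) * r ^ α := by
    rw [← Real.rpow_add hr]
    ring_nf
  have e5 : (2 : ℝ) ^ (α + β) * 2 ^ (-(α - β) * k) = 2 ^ (-((k : ℝ) + 1) * -β) * 2 ^ ((1 - (k : ℝ)) * α) := by
    rw [← Real.rpow_add h2, ← Real.rpow_add h2]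
    ring_nf
  rw [e4]
  calc r ^ (-β) * 2 ^ (-((k : ℝ) + 1) * -β) * (D * (r ^ α * 2 ^ ((1 - (k : ℝ)) * α)))
      = D * (2 ^ (-((k : ℝ) + 1) * -β) * 2 ^ ((1 - (k : ℝ)) * α)) * (r ^ (-β) * r ^ α) := by ring
    _ = D * 2 ^ (α + β) * (r ^ (-β) * r ^ α) * 2 ^ (-(α - β) * k) := by
        rw [← e5]
        ring

theorem LHM : LHM_stmt := by
  intro C0 α β hC0 hβ hβα hα1
  obtain ⟨C₁, hC₁, hball⟩ := LHM_ball
  have hα : 0 < α := lt_of_le_of_lt hβ hβα
  have hq0 : (0 : ℝ) < 2 ^ (-(α - β)) := by positivity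
  have hq1 : (2 : ℝ) ^ (-(α - β)) < 1 := Real.rpow_lt_one_of_one_lt_of_neg (by norm_num) (by linarith)
  obtain ⟨q, hq⟩ : ∃ q : ℝ, q = 2 ^ (-(α - β)) := ⟨_, rfl⟩
  rw [← hq] at hq0 hq1
  have hq1' : 0 < 1 - q := by linarith
  refine ⟨C₁ * C0 * 2 ^ (α + β) / (1 - q), by positivity, ?_⟩
  intro r v hr hv hlap hH
  obtain ⟨D, hD⟩ : ∃ D : ℝ, D = C₁ * C0 * 2 ^ (α + β) * r ^ (α - β) := ⟨_, rfl⟩
  have hD0 : 0 < D := by rw [hD]; positivity
  obtain ⟨A, hA⟩ : ∃ A : ℕ → Set ℂ, A = fun k => {s | r / 2 ^ (k + 1) ≤ ‖s‖ ∧ ‖s‖ < r / 2 ^ k} := ⟨_, rfl⟩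
  have hAm : ∀ k, MeasurableSet (A k) := by
    intro k
    rw [hA]
    exact (measurableSet_le measurable_const measurable_norm).inter (measurableSet_lt measurable_norm measurable_const)
  have hcov : ball (0 : ℂ) r ⊆ {0} ∪ ⋃ k, A k := by
    intro s hs
    rw [mem_ball_zero_iff] at hs
    by_cases h0 : s = 0
    · left
      exact h0
    right
    have hs0 : 0 < ‖s‖ := norm_pos_iff.2 h0
    have hex : ∃ n : ℕ, r / 2 ^ n ≤ ‖s‖ := by
      obtain ⟨n, hn⟩ := pow_unbounded_of_one_lt (r / ‖s‖) (show (1 : ℝ) < 2 by norm_num)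
      refine ⟨n, ?_⟩
      rw [div_lt_iff₀ hs0] at hn
      rw [div_le_iff₀ (by positivity)]
      linarith [mul_comm ‖s‖ ((2 : ℝ) ^ n)]
    classical
    obtain ⟨n, hn, hmin⟩ : ∃ n : ℕ, r / 2 ^ n ≤ ‖s‖ ∧ ∀ m < n, ¬ r / 2 ^ m ≤ ‖s‖ :=
      ⟨Nat.find hex, Nat.find_spec hex, fun m hm => Nat.find_min hex hm⟩
    have hn0 : n ≠ 0 := by
      intro h
      rw [h, pow_zero, div_one] at hn
      linarith
    obtain ⟨k, rfl⟩ := Nat.exists_eq_succ_of_ne_zero hn0
    rw [mem_iUnion]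
    refine ⟨k, ?_⟩
    rw [hA]
    exact ⟨hn, not_le.1 (hmin k (Nat.lt_succ_self k))⟩
  have hk : ∀ k : ℕ, ∫⁻ s in A k, ENNReal.ofReal (‖s‖ ^ (-β) * lap v s) ≤ ENNReal.ofReal (D * q ^ k) := by
    intro k
    have hrk : 0 < r / 2 ^ k := by positivity
    have hrk1 : 0 < r / 2 ^ (k + 1) := by positivity
    have hle : r / 2 ^ k ≤ r := div_le_self hr.le (one_le_pow₀ (by norm_num))
    have hsub : ball (0 : ℂ) (4 * (r / 2 ^ k)) ⊆ ball 0 (4 * r) := ball_subset_ball (by linarith)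
    have h0 : (0 : ℂ) ∈ ball (0 : ℂ) (4 * r) := mem_ball_self (by linarith)
    have h1 := hball C0 α (r / 2 ^ k) v hC0 hα hrk (hv.mono hsub) (fun s hs => hlap s (hsub hs)) (fun s hs => by
      have := hH s (hsub hs) 0 h0
      rwa [sub_zero] at this)
    have hAb : A k ⊆ ball (0 : ℂ) (r / 2 ^ k) := by
      intro s hs
      rw [hA] at hs
      exact mem_ball_zero_iff.2 hs.2
    calc ∫⁻ s in A k, ENNReal.ofReal (‖s‖ ^ (-β) * lap v s)
        ≤ ∫⁻ s in A k, ENNReal.ofReal ((r / 2 ^ (k + 1)) ^ (-β)) * ENNReal.ofReal (lap v s) := by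
          refine setLIntegral_mono' (hAm k) fun s hs => ?_
          rw [← ENNReal.ofReal_mul (by positivity)]
          apply ENNReal.ofReal_le_ofReal
          have hs4 : s ∈ ball (0 : ℂ) (4 * r) := by
            have h2 := mem_ball_zero_iff.1 (hAb hs)
            exact mem_ball_zero_iff.2 (by linarith)
          apply mul_le_mul_of_nonneg_right _ (hlap s hs4)
          rw [hA] at hs
          exact Real.rpow_le_rpow_of_nonpos hrk1 hs.1 (by linarith)
      _ = ENNReal.ofReal ((r / 2 ^ (k + 1)) ^ (-β)) * ∫⁻ s in A k, ENNReal.ofReal (lap v s) :=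
          lintegral_const_mul' _ _ ENNReal.ofReal_ne_top
      _ ≤ ENNReal.ofReal ((r / 2 ^ (k + 1)) ^ (-β)) * ∫⁻ s in ball (0 : ℂ) (r / 2 ^ k), ENNReal.ofReal (lap v s) :=
          mul_le_mul_right (lintegral_mono_set hAb) _
      _ ≤ ENNReal.ofReal ((r / 2 ^ (k + 1)) ^ (-β)) * ENNReal.ofReal (C₁ * C0 * (2 * (r / 2 ^ k)) ^ α) :=
          mul_le_mul_right h1 _
      _ = ENNReal.ofReal (D * q ^ k) := by
          rw [← ENNReal.ofReal_mul (by positivity), LHM_calc r α β (C₁ * C0) k hr, hD, hq]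
  have hsum : ∑' k : ℕ, ENNReal.ofReal (D * q ^ k) = ENNReal.ofReal (C₁ * C0 * 2 ^ (α + β) / (1 - q) * r ^ (α - β)) := by
    have h1 : Summable (fun k : ℕ => D * q ^ k) := (summable_geometric_of_lt_one hq0.le hq1).mul_left D
    rw [← ENNReal.ofReal_tsum_of_nonneg (fun k => by positivity) h1, tsum_mul_left, tsum_geometric_of_lt_one hq0.le hq1, hD]
    apply congrArg
    field_simp
  calc ∫⁻ s in ball (0 : ℂ) r, ENNReal.ofReal (‖s‖ ^ (-β) * lap v s)
      ≤ ∫⁻ s in {0} ∪ ⋃ k, A k, ENNReal.ofReal (‖s‖ ^ (-β) * lap v s) := lintegral_mono_set hcov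
    _ ≤ (∫⁻ s in ({0} : Set ℂ), ENNReal.ofReal (‖s‖ ^ (-β) * lap v s)) +
        ∫⁻ s in ⋃ k, A k, ENNReal.ofReal (‖s‖ ^ (-β) * lap v s) := lintegral_union_le _ _ _
    _ = ∫⁻ s in ⋃ k, A k, ENNReal.ofReal (‖s‖ ^ (-β) * lap v s) := by
        rw [setLIntegral_measure_zero _ _ (measure_singleton _), zero_add]
    _ ≤ ∑' k : ℕ, ∫⁻ s in A k, ENNReal.ofReal (‖s‖ ^ (-β) * lap v s) := lintegral_iUnion_le _ _
    _ ≤ ∑' k : ℕ, ENNReal.ofReal (D * q ^ k) := ENNReal.tsum_le_tsum hk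
    _ = ENNReal.ofReal (C₁ * C0 * 2 ^ (α + β) / (1 - q) * r ^ (α - β)) := hsum

end Pool.Agent.P2
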