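import Pool.Agent.helper56.P2.SpecU

/-! Row p2:UAFW (MP_063734_an): the area formula with weights -/

set_option autoImplicit false

namespace Pool.Agent.P2U

open MeasureTheory Set Filter Topology Metric Complex
open scoped ENNReal ContDiff NNReal

section area

variable {E : Type} [NormedAddCommGroup E] [NormedSpace ℝ E] [FiniteDimensional ℝ E]
  [MeasurableSpace E] [BorelSpace E]

omit [FiniteDimensional ℝ E] [MeasurableSpace E] [BorelSpace E] in
/-- a small number for every linear map -/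
theorem UAFW_rad (A : E →L[ℝ] E) : ∃ r : ℝ≥0, r ≠ 0 ∧ ∀ B : E ≃L[ℝ] E, (B : E →L[ℝ] E) = A →
    (Subsingleton E ∨ r < ‖(B.symm : E →L[ℝ] E)‖₊⁻¹) := by
  rcases subsingleton_or_nontrivial E with h | h
  · exact ⟨1, one_ne_zero, fun _ _ => Or.inl h⟩
  · by_cases hB : ∃ B : E ≃L[ℝ] E, (B : E →L[ℝ] E) = A
    · obtain ⟨B, hB⟩ := hB
      have hpos : 0 < ‖(B.symm : E →L[ℝ] E)‖₊ := B.nnnorm_symm_pos
      have hpos' : 0 < ‖(B.symm : E →L[ℝ] E)‖₊⁻¹ := inv_pos.2 hpos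
      refine ⟨‖(B.symm : E →L[ℝ] E)‖₊⁻¹ / 2, (half_pos hpos').ne', fun B' hB' => Or.inr ?_⟩
      have : B' = B := ContinuousLinearEquiv.coe_injective (hB'.trans hB.symm)
      rw [this]
      exact NNReal.half_lt_self hpos'.ne'
    · exact ⟨1, one_ne_zero, fun B hB' => absurd ⟨B, hB'⟩ hB⟩

omit [NormedAddCommGroup E] [NormedSpace ℝ E] [FiniteDimensional ℝ E] [MeasurableSpace E] [BorelSpace E] in
/-- the sum over the preimages -/
theorem UAFW_sum (F : E → E) (S : Set E) (t : ℕ → Set E) (hd : Pairwise (Function.onFun Disjoint t))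
    (hS : S ⊆ ⋃ n, t n) (hinj : ∀ n, Set.InjOn F (S ∩ t n)) (ψ : E → ℝ≥0∞) (ψ' : ℕ → E → ℝ≥0∞)
    (hψ : ∀ n, ∀ c ∈ S ∩ t n, ψ' n (F c) = ψ c) (y : E) :
    ∑' n, (F '' (S ∩ t n)).indicator (ψ' n) y = ∑' c : {c // c ∈ S ∧ F c = y}, ψ c := by
  have hex : ∀ c, ∃ n, c ∈ S → c ∈ t n := by
    intro c
    by_cases hc : c ∈ S
    · obtain ⟨n, hn⟩ := Set.mem_iUnion.1 (hS hc)
      exact ⟨n, fun _ => hn⟩
    · exact ⟨0, fun h => absurd h hc⟩
  choose ι hι using hex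
  have hmem : ∀ c : {c // c ∈ S ∧ F c = y}, y ∈ F '' (S ∩ t (ι c)) := fun c =>
    ⟨c, ⟨c.2.1, hι c c.2.1⟩, c.2.2⟩
  let e : {c // c ∈ S ∧ F c = y} → {n : ℕ // y ∈ F '' (S ∩ t n)} := fun c => ⟨ι c, hmem c⟩
  have hbij : Function.Bijective e := by
    constructor
    · rintro ⟨c, hc, hcy⟩ ⟨c', hc', hcy'⟩ h
      have h0 : ι c = ι c' := congrArg Subtype.val h
      have h1 := hι c hc
      have h2 := hι c' hc'
      rw [← h0] at h2
      exact Subtype.ext (hinj (ι c) ⟨hc, h1⟩ ⟨hc', h2⟩ (hcy.trans hcy'.symm))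
    · rintro ⟨n, c, ⟨hc, hct⟩, hcy⟩
      refine ⟨⟨c, hc, hcy⟩, Subtype.ext ?_⟩
      show ι c = n
      by_contra hne
      exact Set.disjoint_left.1 (hd hne) (hι c hc) hct
  have h1 : ∑' c : {c // c ∈ S ∧ F c = y}, ψ c = ∑' c : {c // c ∈ S ∧ F c = y}, ψ' (e c).1 y := by
    refine tsum_congr fun c => ?_
    have h2 := hψ (ι c) c ⟨c.2.1, hι c c.2.1⟩
    rw [c.2.2] at h2
    exact h2.symm
  have h3 : ∑' c : {c // c ∈ S ∧ F c = y}, ψ' (e c).1 y = ∑' n : {n : ℕ // y ∈ F '' (S ∩ t n)}, ψ' n.1 y :=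
    (Equiv.ofBijective e hbij).tsum_eq (fun n : {n : ℕ // y ∈ F '' (S ∩ t n)} => ψ' n.1 y)
  rw [h1, h3]
  rw [show (∑' n : {n : ℕ // y ∈ F '' (S ∩ t n)}, ψ' n.1 y) =
    ∑' n : ({n : ℕ | y ∈ F '' (S ∩ t n)} : Set ℕ), ψ' n.1 y from rfl,
    tsum_subtype {n : ℕ | y ∈ F '' (S ∩ t n)} (fun n => ψ' n y)]
  refine tsum_congr fun n => ?_
  by_cases h : y ∈ F '' (S ∩ t n)
  · rw [Set.indicator_of_mem h, Set.indicator_of_mem (show n ∈ {n | y ∈ F '' (S ∩ t n)} from h)]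
  · rw [Set.indicator_of_notMem h,
      Set.indicator_of_notMem (show n ∉ {n | y ∈ F '' (S ∩ t n)} from h)]

end area

theorem UAFW : UAFW_stmt := by
  intro E _ _ _ _ _ μ _ F F' S hS hF hdet ψ hψ
  rcases S.eq_empty_or_nonempty with hE | hne
  · subst hE
    have h : ∀ y, ∑' c : {c // c ∈ (∅ : Set E) ∧ F c = y}, ψ c = 0 := by
      intro y
      have : IsEmpty {c // c ∈ (∅ : Set E) ∧ F c = y} := ⟨fun c => c.2.1⟩
      exact tsum_empty
    simp only [h]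
    simp
  choose r hr0 hr using (UAFW_rad : ∀ A : E →L[ℝ] E, _)
  obtain ⟨t, A, hd, htm, hSt, hA, hAF⟩ :=
    exists_partition_approximatesLinearOn_of_hasFDerivWithinAt F S F' hF r hr0
  have hinj : ∀ n, Set.InjOn F (S ∩ t n) := by
    intro n
    obtain ⟨y, hy, hAy⟩ := hAF hne n
    have hB := ContinuousLinearMap.coe_toContinuousLinearEquivOfDetNeZero (F' y) (hdet y hy)
    have h1 := hr (A n) ((F' y).toContinuousLinearEquivOfDetNeZero (hdet y hy)) (hB.trans hAy.symm)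
    have h2 := hA n
    rw [← hB.trans hAy.symm] at h2
    refine h2.injOn ?_
    rw [hB.trans hAy.symm]
    exact h1
  have hm : ∀ n, MeasurableSet (S ∩ t n) := fun n => hS.inter (htm n)
  have hF' : ∀ n, ∀ x ∈ S ∩ t n, HasFDerivWithinAt F (F' x) (S ∩ t n) x := fun n x hx =>
    (hF x hx.1).mono Set.inter_subset_left
  have hmi : ∀ n, MeasurableSet (F '' (S ∩ t n)) := fun n =>
    measurable_image_of_fderivWithin (hm n) (hF' n) (hinj n)
  have hSu : S = ⋃ n, (S ∩ t n) := by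
    rw [← Set.inter_iUnion, Set.inter_eq_left.2 hSt]
  have hdis : Pairwise (Function.onFun Disjoint fun n => S ∩ t n) := fun i j hij =>
    (hd hij).mono Set.inter_subset_right Set.inter_subset_right
  -- the functions on the images
  have hext : ∀ n, ∃ ψ' : E → ℝ≥0∞, Measurable ψ' ∧ ∀ c ∈ S ∩ t n, ψ' (F c) = ψ c := by
    intro n
    have hc : ContinuousOn F (S ∩ t n) := fun x hx => (hF' n x hx).continuousWithinAt
    have hemb : MeasurableEmbedding ((S ∩ t n).domRestrict F) := hc.measurableEmbedding (hm n) (hinj n)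
    obtain ⟨ψ', hψ'm, hψ'⟩ := hemb.exists_measurable_extend (hψ.comp measurable_subtype_coe) (fun _ => ⟨0⟩)
    exact ⟨ψ', hψ'm, fun c hc => congrFun hψ' ⟨c, hc⟩⟩
  choose ψ' hψ'm hψ' using hext
  have hsum := UAFW_sum F S t hd hSt hinj ψ ψ' hψ'
  refine ⟨?_, ?_⟩
  swap
  · have h1 : (fun y => ∑' c : {c // c ∈ S ∧ F c = y}, ψ c) =
        fun y => ∑' n, (F '' (S ∩ t n)).indicator (ψ' n) y := by
      funext y
      exact (hsum y).symm
    rw [h1]
    exact Measurable.tsum fun n => (hψ'm n).indicator (hmi n)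
  calc ∫⁻ c in S, ENNReal.ofReal |(F' c).det| * ψ c ∂μ
      = ∫⁻ c in ⋃ n, (S ∩ t n), ENNReal.ofReal |(F' c).det| * ψ c ∂μ := by rw [← hSu]
    _ = ∑' n, ∫⁻ c in S ∩ t n, ENNReal.ofReal |(F' c).det| * ψ c ∂μ :=
        lintegral_iUnion hm hdis _
    _ = ∑' n, ∫⁻ c in S ∩ t n, ENNReal.ofReal |(F' c).det| * ψ' n (F c) ∂μ := by
        refine tsum_congr fun n => ?_
        refine setLIntegral_congr_fun (hm n) fun c hc => ?_
        show ENNReal.ofReal |(F' c).det| * ψ c = ENNReal.ofReal |(F' c).det| * ψ' n (F c)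
        rw [hψ' n c hc]
    _ = ∑' n, ∫⁻ y in F '' (S ∩ t n), ψ' n y ∂μ := by
        refine tsum_congr fun n => ?_
        rw [lintegral_image_eq_lintegral_abs_det_fderiv_mul μ (hm n) (hF' n) (hinj n)]
    _ = ∑' n, ∫⁻ y, (F '' (S ∩ t n)).indicator (ψ' n) y ∂μ := by
        refine tsum_congr fun n => ?_
        rw [← lintegral_indicator (hmi n)]
    _ = ∫⁻ y, ∑' n, (F '' (S ∩ t n)).indicator (ψ' n) y ∂μ := by
        rw [lintegral_tsum]
        intro n
        exact ((hψ'm n).indicator (hmi n)).aemeasurable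
    _ = _ := lintegral_congr fun y => hsum y

end Pool.Agent.P2U
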