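import Pool.Agent.helper56.P2.SpecU

/-! Row p2:USDE (MP_063734_an): the exit energy and the sum over the sheets -/

set_option autoImplicit false

namespace Pool.Agent.P2U

open MeasureTheory Set Filter Topology Metric Complex
open scoped ENNReal ContDiff

theorem USDE_open (a r : ℝ) : IsOpen (TB a r) := by
  have h1 : IsOpen {p : ℂ × ℂ | ‖p.1‖ < a} := isOpen_lt (continuous_fst.norm) continuous_const
  have h2 : IsOpen {p : ℂ × ℂ | ‖p.2‖ < r} := isOpen_lt (continuous_snd.norm) continuous_const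
  exact h1.inter h2

theorem USDE_cont {P Q : ℂ × ℂ → ℂ} {a r : ℝ} (h : Hol P Q a r) :
    ContinuousOn P (TB a r) ∧ ContinuousOn Q (TB a r) ∧ ContinuousOn (cx P Q) (TB a r) ∧ ContinuousOn (cv P Q) (TB a r) := by
  have hP := h.hP.continuousOn
  have hQ := h.hQ.continuousOn
  have hP' : ContinuousOn (fderiv ℂ P) (TB a r) := h.hP.fderiv.continuousOn
  have hQ' : ContinuousOn (fderiv ℂ Q) (TB a r) := h.hQ.fderiv.continuousOn
  refine ⟨hP, hQ, ?_, ?_⟩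
  · exact (hQ.mul (hP'.clm_apply continuousOn_const)).sub (hP.mul (hQ'.clm_apply continuousOn_const))
  · exact (hQ.mul (hP'.clm_apply continuousOn_const)).sub (hP.mul (hQ'.clm_apply continuousOn_const))

theorem USDE_gz (A B c : ℂ) (hB : B ≠ 0) (X : ℝ) (_hX : 0 ≤ X) : ENNReal.ofReal (‖c‖ ^ 2 / ‖B‖ ^ 4) * (gz (A / B) * ENNReal.ofReal X) =
    ENNReal.ofReal (X * ‖c‖ ^ 2 * ((‖A‖ ^ 2 + ‖B‖ ^ 2) ^ 2)⁻¹) := by
  unfold gz
  rw [← ENNReal.ofReal_mul (by positivity), ← ENNReal.ofReal_mul (by positivity)]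
  apply congrArg
  have hB' : ‖B‖ ≠ 0 := norm_ne_zero_iff.2 hB
  have hBp : 0 < ‖B‖ := norm_pos_iff.2 hB
  have h1 : (1 : ℝ) + ‖A / B‖ ^ 2 = (‖A‖ ^ 2 + ‖B‖ ^ 2) / ‖B‖ ^ 2 := by
    rw [norm_div]
    field_simp
    ring
  have h2 : 0 < ‖A‖ ^ 2 + ‖B‖ ^ 2 := by positivity
  rw [h1]
  field_simp

theorem USDE (hAFW : UAFW_stmt) (hJAC : UJAC_stmt) : USDE_stmt := by
  classical
  intro P Q r r0 p hol hr0 hr hp
  obtain ⟨hPc, hQc, hcx, hcv⟩ := USDE_cont hol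
  have hsub : TB 1 r0 ⊆ TB 2 r := by
    rintro q ⟨h1, h2⟩
    exact ⟨by linarith, by linarith⟩
  -- the set
  obtain ⟨S, hSd⟩ : ∃ S : Set (ℂ × ℂ), S = TB 1 r0 ∩ (fun q => Q q * cx P Q q) ⁻¹' {0}ᶜ := ⟨_, rfl⟩
  have hSmem : ∀ q, q ∈ S ↔ q ∈ TB 1 r0 ∧ Q q ≠ 0 ∧ cx P Q q ≠ 0 := by
    intro q
    rw [hSd]
    constructor
    · rintro ⟨h1, h2⟩
      exact ⟨h1, mul_ne_zero_iff.1 h2⟩
    · rintro ⟨h1, h2⟩
      exact ⟨h1, mul_ne_zero_iff.2 h2⟩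
  have hSo : IsOpen S := by
    rw [hSd]
    exact ((hQc.mul hcx).mono hsub).isOpen_inter_preimage (USDE_open 1 r0) isOpen_compl_singleton
  have hSm : MeasurableSet S := hSo.measurableSet
  have hST : S ⊆ TB 2 r := fun q hq => hsub ((hSmem q).1 hq).1
  -- the derivative
  have hJ : ∀ q, ∃ A : ℂ × ℂ →L[ℝ] ℂ × ℂ, q ∈ S → HasFDerivAt (fun q : ℂ × ℂ => (P q / Q q, q.2)) A q ∧
      |A.det| = ‖cx P Q q‖ ^ 2 / ‖Q q‖ ^ 4 := by
    intro q
    by_cases hq : q ∈ S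
    · obtain ⟨A, hA⟩ := (hJAC P Q 2 r hol q (hST hq) ((hSmem q).1 hq).2.1).2.1
      exact ⟨A, fun _ => hA⟩
    · exact ⟨0, fun h => absurd h hq⟩
  choose F' hF' using hJ
  -- the weight
  obtain ⟨ψ0, hψ0⟩ : ∃ ψ0 : ℂ × ℂ → ℝ≥0∞, ψ0 = fun q => gz (P q / Q q) * ENNReal.ofReal ((‖cv P Q q‖ / ‖cx P Q q‖) ^ p) := ⟨_, rfl⟩
  have hψc : ContinuousOn ψ0 S := by
    rw [hψ0]
    have h1 : ContinuousOn (fun q => P q / Q q) S :=
      (hPc.mono hST).div (hQc.mono hST) fun q hq => ((hSmem q).1 hq).2.1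
    have h2 : ContinuousOn (fun q => (‖cv P Q q‖ / ‖cx P Q q‖) ^ p) S :=
      ((hcv.mono hST).norm.div (hcx.mono hST).norm fun q hq => norm_ne_zero_iff.2 ((hSmem q).1 hq).2.2).rpow_const
        fun q _ => Or.inr hp.le
    have h3 : ContinuousOn (fun q => gz (P q / Q q)) S := by
      unfold gz
      apply ENNReal.continuous_ofReal.comp_continuousOn
      apply ContinuousOn.inv₀
      · exact (continuousOn_const.add (h1.norm.pow 2)).pow 2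
      · intro q _
        positivity
    have h4 : ContinuousOn (fun q => ENNReal.ofReal ((‖cv P Q q‖ / ‖cx P Q q‖) ^ p)) S :=
      ENNReal.continuous_ofReal.comp_continuousOn h2
    intro q hq
    exact ENNReal.Tendsto.mul (h3 q hq) (Or.inr ENNReal.ofReal_ne_top) (h4 q hq) (Or.inr ENNReal.ofReal_ne_top)
  obtain ⟨ψ, hψd⟩ : ∃ ψ : ℂ × ℂ → ℝ≥0∞, ψ = S.piecewise ψ0 (fun _ => 0) := ⟨_, rfl⟩
  have hψm : Measurable ψ := by
    rw [hψd]
    exact hψc.measurable_piecewise continuousOn_const hSm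
  have hψS : ∀ q ∈ S, ψ q = gz (P q / Q q) * ENNReal.ofReal ((‖cv P Q q‖ / ‖cx P Q q‖) ^ p) := by
    intro q hq
    rw [hψd, Set.piecewise_eq_of_mem _ _ _ hq, hψ0]
  have hHaar : (volume : Measure (ℂ × ℂ)).IsAddHaarMeasure := by
    rw [Measure.volume_eq_prod]
    infer_instance
  obtain ⟨hA1, hA2⟩ := hAFW (ℂ × ℂ) volume (fun q : ℂ × ℂ => (P q / Q q, q.2)) F' S hSm
    (fun q hq => (hF' q hq).1.hasFDerivWithinAt) (fun q hq => by
      intro h0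
      have h1 := (hF' q hq).2
      rw [h0, abs_zero] at h1
      have h2 : 0 < ‖cx P Q q‖ ^ 2 / ‖Q q‖ ^ 4 := by
        have h3 := norm_pos_iff.2 ((hSmem q).1 hq).2.1
        have h4 := norm_pos_iff.2 ((hSmem q).1 hq).2.2
        positivity
      linarith) ψ hψm
  -- the left side
  have hleft : ∫⁻ c in S, ENNReal.ofReal |(F' c).det| * ψ c ≤
      ∫⁻ q in TB 1 r0, ENNReal.ofReal ((‖cv P Q q‖ / ‖cx P Q q‖) ^ p * ‖cx P Q q‖ ^ 2 * om P Q q) := by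
    have h1 : ∫⁻ c in S, ENNReal.ofReal |(F' c).det| * ψ c =
        ∫⁻ q in S, ENNReal.ofReal ((‖cv P Q q‖ / ‖cx P Q q‖) ^ p * ‖cx P Q q‖ ^ 2 * om P Q q) := by
      refine setLIntegral_congr_fun hSm fun q hq => ?_
      show ENNReal.ofReal |(F' q).det| * ψ q = ENNReal.ofReal ((‖cv P Q q‖ / ‖cx P Q q‖) ^ p * ‖cx P Q q‖ ^ 2 * om P Q q)
      rw [(hF' q hq).2, hψS q hq, USDE_gz _ _ _ ((hSmem q).1 hq).2.1 _ (by positivity)]
      rfl
    rw [h1]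
    exact lintegral_mono_set fun q hq => ((hSmem q).1 hq).1
  refine le_trans ?_ hleft
  rw [hA1]
  have hprod : ∫⁻ y : ℂ × ℂ, ∑' c : {c // c ∈ S ∧ (fun q : ℂ × ℂ => (P q / Q q, q.2)) c = y}, ψ c =
      ∫⁻ ζ : ℂ, ∫⁻ w : ℂ, ∑' c : {c // c ∈ S ∧ (fun q : ℂ × ℂ => (P q / Q q, q.2)) c = (ζ, w)}, ψ c := by
    rw [Measure.volume_eq_prod, lintegral_prod _ hA2.aemeasurable]
  rw [hprod]
  refine lintegral_mono fun ζ => ?_
  have hgz : gz ζ ≠ ⊤ := ENNReal.ofReal_ne_top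
  rw [← lintegral_const_mul' _ _ hgz]
  refine le_trans ?_ (setLIntegral_le_lintegral (ball (0 : ℂ) r0) _)
  refine setLIntegral_mono' measurableSet_ball fun w hw => ?_
  rw [mem_ball_zero_iff] at hw
  -- the injection
  have hin : ∀ x : Rt P Q ζ w, (x.1, w) ∈ S ∧ (fun q : ℂ × ℂ => (P q / Q q, q.2)) (x.1, w) = (ζ, w) := by
    rintro ⟨x, hx1, hx2, hx3⟩
    have hT : (x, w) ∈ TB 1 r0 := ⟨hx1, hw⟩
    have hQ0 : Q (x, w) ≠ 0 := by
      intro h0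
      rw [h0, mul_zero] at hx2
      rcases hol.ne _ (hsub hT) with h | h
      · exact h hx2
      · exact h h0
    refine ⟨(hSmem _).2 ⟨hT, hQ0, hx3⟩, ?_⟩
    show (P (x, w) / Q (x, w), w) = (ζ, w)
    rw [hx2, mul_div_cancel_right₀ _ hQ0]
  let e : Rt P Q ζ w → {c // c ∈ S ∧ (fun q : ℂ × ℂ => (P q / Q q, q.2)) c = (ζ, w)} := fun x => ⟨(x.1, w), hin x⟩
  have hinj : Function.Injective e := by
    intro x x' h
    have h1 : (x.1, w) = (x'.1, w) := congrArg Subtype.val h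
    exact Subtype.ext (congrArg Prod.fst h1)
  calc gz ζ * ∑' x : Rt P Q ζ w, ENNReal.ofReal ((‖cv P Q (x.1, w)‖ / ‖cx P Q (x.1, w)‖) ^ p)
      = ∑' x : Rt P Q ζ w, gz ζ * ENNReal.ofReal ((‖cv P Q (x.1, w)‖ / ‖cx P Q (x.1, w)‖) ^ p) :=
        ENNReal.tsum_mul_left.symm
    _ = ∑' x : Rt P Q ζ w, ψ (e x).1 := by
        refine tsum_congr fun x => ?_
        have h1 := hψS _ (hin x).1
        have h2 : P (x.1, w) / Q (x.1, w) = ζ := congrArg Prod.fst (hin x).2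
        rw [h2] at h1
        exact h1.symm
    _ ≤ ∑' c : {c // c ∈ S ∧ (fun q : ℂ × ℂ => (P q / Q q, q.2)) c = (ζ, w)}, ψ c :=
        ENNReal.tsum_comp_le_tsum_of_injective hinj (fun c => ψ c.1)

end Pool.Agent.P2U
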